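import Pool.Agent.Helper91.FS.Goals2
import Pool.Agent.Helper81.FS.PG4

/-! Packet FS-PG6: overgroups of subgroups of index at most 2 of `PGL(2, q)`. (helper26) -/

set_option autoImplicit false

namespace Pool.Agent.Helper26.FS

open Finset
open Pool.Agent.Helper47.SR (Grp mv lev wt Ew W)
open Pool.Agent.Helper49.NF
open Pool.Agent.Helper91.FS
open Pool.Agent.Helper81.FS (sb mem_sb mv_of card_sb mv_mem agree four)

variable {n : ℕ}

lemma mv_mul (π γ : Equiv.Perm (Fin n)) (A : Finset (Fin n)) : mv (π * γ) A = mv π (mv γ A) := by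
  unfold mv
  rw [map_map]
  rfl

lemma mv_one (A : Finset (Fin n)) : mv 1 A = A := mv_of (fun x hx => hx)

lemma mv_inv_mv (π : Equiv.Perm (Fin n)) (A : Finset (Fin n)) : mv π⁻¹ (mv π A) = A := by
  rw [← mv_mul, inv_mul_cancel, mv_one]

lemma mv_mv_inv (π : Equiv.Perm (Fin n)) (A : Finset (Fin n)) : mv π (mv π⁻¹ A) = A := by
  rw [← mv_mul, mul_inv_cancel, mv_one]

lemma sb_card_le {G : Grp n} {π : Equiv.Perm (Fin n)} (h : ∀ γ ∈ G, π * γ * π⁻¹ ∈ G)
    (A : Finset (Fin n)) : #(sb G A) ≤ #(sb G (mv π A)) := by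
  apply card_le_card_of_injOn (fun γ => π * γ * π⁻¹)
  · intro γ hγ
    rw [mem_coe, mem_sb] at hγ
    show π * γ * π⁻¹ ∈ ((sb G (mv π A) : Finset _) : Set _)
    rw [mem_coe, mem_sb]
    refine ⟨h γ hγ.1, ?_⟩
    rw [mv_mul, mv_inv_mv, mv_mul, hγ.2]
  · intro γ _ δ _ h2
    have h3 : π * γ * π⁻¹ = π * δ * π⁻¹ := h2
    exact mul_left_cancel (mul_right_cancel h3)

lemma wt_conj {P G : Grp n} (hn : ∀ π ∈ P, ∀ γ ∈ G, π * γ * π⁻¹ ∈ G) {π : Equiv.Perm (Fin n)}
    (hπ : π ∈ P) (A : Finset (Fin n)) : wt G (mv π A) = wt G A := by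
  have h1 := sb_card_le (hn π hπ) A
  have h2 := sb_card_le (hn π⁻¹ (P.inv_mem hπ)) (mv π A)
  rw [mv_inv_mv] at h2
  rw [card_sb, card_sb] at h1 h2
  omega

lemma dt {P : Grp n} (hP : PG n P) {a b c d : Fin n} (hab : a ≠ b) (hac : a ≠ c) (had : a ≠ d)
    (hbc : b ≠ c) (hbd : b ≠ d) : ∃ σ ∈ P, σ a = b ∧ σ b = a ∧ σ c = d ∧ σ d = c := by
  obtain ⟨γ, hγ, h1, h2, h3⟩ := hP.ex a b c b a d hab hac hbc hab.symm hbd had
  have h4 := hP.inv a b hab γ hγ h1 h2
  refine ⟨γ, hγ, h1, h2, h3, ?_⟩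
  have := congrArg (fun g : Equiv.Perm (Fin n) => g c) h4
  simpa [Equiv.Perm.mul_apply, h3] using this

lemma two_le {P0 P G N : Grp n} (hO : Ov n P0 P G N) {A : Finset (Fin n)} (hA : #A = 4) :
    2 ≤ #(sb G A) := by
  classical
  obtain ⟨a, ha⟩ : A.Nonempty := by rw [← card_pos, hA]; norm_num
  obtain ⟨b, c, d, hab, hac, had, hbc, hbd, hcd, hAe⟩ := four hA ha
  obtain ⟨σ, hσ, s1, s2, s3, s4⟩ := dt hO.pg hab hac had hbc hbd
  obtain ⟨τ, hτ, t1, t2, t3, t4⟩ := dt hO.pg hac hab had hbc.symm hcd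
  have hσA : mv σ A = A := by
    apply mv_of
    intro x hx
    rw [hAe] at hx ⊢
    simp only [mem_insert, mem_singleton] at hx ⊢
    rcases hx with rfl | rfl | rfl | rfl
    · rw [s1]; tauto
    · rw [s2]; tauto
    · rw [s3]; tauto
    · rw [s4]; tauto
  have hτA : mv τ A = A := by
    apply mv_of
    intro x hx
    rw [hAe] at hx ⊢
    simp only [mem_insert, mem_singleton] at hx ⊢
    rcases hx with rfl | rfl | rfl | rfl
    · rw [t1]; tauto
    · rw [t3]; tauto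
    · rw [t2]; tauto
    · rw [t4]; tauto
  have key : ∃ ρ ∈ P0, ρ ≠ 1 ∧ mv ρ A = A := by
    by_cases hs : σ ∈ P0
    · refine ⟨σ, hs, ?_, hσA⟩
      rintro rfl
      exact hab s1
    by_cases ht : τ ∈ P0
    · refine ⟨τ, ht, ?_, hτA⟩
      rintro rfl
      exact hac t1
    · refine ⟨σ * τ, hO.idx σ hσ τ hτ hs ht, ?_, ?_⟩
      · intro h
        have h1 : (σ * τ) a = a := by rw [h]; rfl
        rw [Equiv.Perm.mul_apply, t1, s3] at h1
        exact had h1.symm
      · rw [mv_mul, hτA, hσA]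
  obtain ⟨ρ, hρ, hρ1, hρA⟩ := key
  have h1 : ({1, ρ} : Finset (Equiv.Perm (Fin n))) ⊆ sb G A := by
    intro x hx
    rw [mem_insert, mem_singleton] at hx
    rcases hx with rfl | rfl
    · exact mem_sb.2 ⟨G.one_mem, mv_one A⟩
    · exact mem_sb.2 ⟨hO.leG hρ, hρA⟩
  calc 2 = #({1, ρ} : Finset (Equiv.Perm (Fin n))) := (card_pair hρ1.symm).symm
    _ ≤ _ := card_le_card h1

lemma not_three {G N : Grp n} (hGN : G ≤ N) {A : Finset (Fin n)} (h4 : #(sb N A) = 4) :
    #(sb G A) ≠ 3 := by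
  classical
  intro h3
  have hsub : sb G A ⊆ sb N A := fun γ hγ => by
    rw [mem_sb] at hγ ⊢
    exact ⟨hGN hγ.1, hγ.2⟩
  have h1 : #(sb N A \ sb G A) = 1 := by
    rw [card_sdiff_of_subset hsub, h4, h3]
  obtain ⟨g, hg⟩ := card_eq_one.1 h1
  obtain ⟨h, hh, hh1⟩ : ∃ h ∈ sb G A, h ≠ 1 := by
    obtain ⟨x, hx, y, hy, hxy⟩ := one_lt_card.1 (show 1 < #(sb G A) by omega)
    by_cases hx1 : x = 1
    · exact ⟨y, hy, fun hy1 => hxy (hx1.trans hy1.symm)⟩
    · exact ⟨x, hx, hx1⟩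
  have hgm : g ∈ sb N A \ sb G A := by rw [hg]; exact mem_singleton_self g
  rw [mem_sdiff, mem_sb, mem_sb] at hgm
  rw [mem_sb] at hh
  have h2 : h * g ∈ sb N A \ sb G A := by
    rw [mem_sdiff, mem_sb, mem_sb]
    refine ⟨⟨N.mul_mem (hGN hh.1) hgm.1.1, by rw [mv_mul, hgm.1.2, hh.2]⟩, ?_⟩
    rintro ⟨h5, h6⟩
    apply hgm.2
    refine ⟨?_, hgm.1.2⟩
    have := G.mul_mem (G.inv_mem hh.1) h5
    rwa [inv_mul_cancel_left] at this
  rw [hg, mem_singleton] at h2
  exact hh1 (mul_eq_right.1 h2)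

/-- **PG6** -/
theorem goal_PG6 (h1 : Goal_STBB) (h5 : Goal_PG5) : Goal_PG6 := by
  classical
  intro n L f P0 P G N hn hO hE
  have trans3 : ∀ A ∈ lev n 3, ∀ B ∈ lev n 3, ∃ π ∈ P, mv π A = B := by
    intro A hA B hB
    have hA3 : #A = 3 := by simpa [lev] using hA
    have hB3 : #B = 3 := by simpa [lev] using hB
    obtain ⟨a, b, c, hab, hac, hbc, rfl⟩ := card_eq_three.1 hA3
    obtain ⟨a', b', c', hab', hac', hbc', rfl⟩ := card_eq_three.1 hB3
    obtain ⟨π, hπ, p1, p2, p3⟩ := hO.pg.ex a b c a' b' c' hab hac hbc hab' hac' hbc'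
    refine ⟨π, hπ, ?_⟩
    simp [mv, p1, p2, p3]
  refine ⟨?_, ?_⟩
  · intro A hA B hB C hC
    obtain ⟨π, hπ, e1⟩ := trans3 A hA B hB
    obtain ⟨π', hπ', e2⟩ := trans3 A hA C hC
    by_cases q1 : π ∈ P0
    · exact Or.inl ⟨π, hO.leG q1, e1⟩
    by_cases q2 : π' ∈ P0
    · exact Or.inr (Or.inl ⟨π', hO.leG q2, e2⟩)
    · refine Or.inr (Or.inr ⟨π' * π⁻¹, hO.leG (hO.idx π' hπ' π⁻¹ (P.inv_mem hπ) q2 ?_), ?_⟩)
      · intro h
        apply q1
        have := P0.inv_mem h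
        rwa [inv_inv] at this
      · rw [mv_mul, ← e1, mv_inv_mv, e2]
  · obtain ⟨w, hw⟩ : ∃ w : Finset (Fin n) → ℕ, w = fun A => if #A = 4 ∧ 4 ≤ 1 + wt G A then 1 else 0 :=
      ⟨_, rfl⟩
    have hwle : ∀ A, w A ≤ 1 := by
      intro A
      rw [hw]
      dsimp only
      split_ifs <;> norm_num
    have hwinv : ∀ π ∈ P, ∀ A, w (mv π A) = w A := by
      intro π hπ A
      rw [hw]
      dsimp only
      rw [wt_conj hO.nor hπ, card_map]
    obtain ⟨T0, -, hT0⟩ := exists_subset_card_eq (s := (univ : Finset (Fin n))) (n := 3)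
      (by rw [card_univ, Fintype.card_fin]; omega)
    have hT0l : T0 ∈ lev n 3 := by simpa [lev] using hT0
    refine ⟨w, ∑ x ∈ univ \ T0, w (insert x T0), ⟨hwle, ?_⟩, ?_, ?_⟩
    · intro T hT
      obtain ⟨π, hπ, e⟩ := trans3 T0 hT0l T hT
      symm
      refine sum_equiv π (fun x => ?_) (fun x _ => ?_)
      · rw [mem_sdiff, mem_sdiff, ← e]
        simp [mv]
      · rw [← e, ← hwinv π hπ (insert x T0)]
        congr 1
        simp [mv, map_insert]
    · intro A hA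
      have hA4 : #A = 4 := by simpa [lev] using hA
      have h2 := two_le hO hA4
      rw [card_sb] at h2
      rw [hw]
      dsimp only
      split_ifs with h
      · omega
      · omega
    · obtain ⟨g1, g2⟩ := h5 n L f P N hn hO.pg hO.lePN hE
      obtain ⟨-, -, s3⟩ := h1 3 n L f N hE
      have key : ∀ A ∈ lev n 4, 1 + wt G A ≤ 2 * (1 + w A) + if 1 + wt N A ≠ 4 then 64 * L else 0 := by
        intro A hA
        have hA4 : #A = 4 := by simpa [lev] using hA
        have h2 := two_le hO hA4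
        have hle : #(sb G A) ≤ #(sb N A) := by
          apply card_le_card
          intro γ hγ
          rw [mem_sb] at hγ ⊢
          exact ⟨hO.leN hγ.1, hγ.2⟩
        by_cases h : 1 + wt N A = 4
        · rw [if_neg (by simpa using h), add_zero]
          have h3 := not_three hO.leN (A := A) (by rw [card_sb]; exact h)
          rw [card_sb] at h2 h3 hle
          rw [card_sb, h] at hle
          rw [hw]
          dsimp only
          split_ifs with h6
          · omega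
          · have : ¬ 4 ≤ 1 + wt G A := fun h7 => h6 ⟨hA4, h7⟩
            omega
        · rw [if_pos h]
          have h3 := s3 A (by omega)
          rw [hA4] at h3
          rw [card_sb, card_sb] at hle
          have : L * 4 ^ 3 = 64 * L := by ring
          omega
      unfold W
      refine (sum_le_sum key).trans ?_
      rw [sum_add_distrib, ← mul_sum, ← sum_filter, sum_const, smul_eq_mul]
      apply Nat.add_le_add_left
      calc #((lev n 4).filter (fun A => 1 + wt N A ≠ 4)) * (64 * L)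
          ≤ 6 * L * f * n ^ 3 * (64 * L) := Nat.mul_le_mul_right _ g2
        _ = 384 * (L ^ 2 * f * n ^ 3) := by ring
        _ ≤ 1000 * (L ^ 2 * f * n ^ 3) := Nat.mul_le_mul_right _ (by norm_num)
        _ = 1000 * L ^ 2 * f * n ^ 3 := by ring

end Pool.Agent.Helper26.FS
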